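import Mathlib

/-!
# Dihedral groups of order at least 16 are not direct factors of unit groups which are 2-groups
-/

set_option autoImplicit false

namespace Pool.Agent.Results.MP_c51eea_al.DihedralFactor

/-- A group is realizable if it is isomorphic to the unit group of some finite ring (associative
with identity, not necessarily commutative). -/
def Realizable (G : Type) [Group G] : Prop :=
  ∃ (R : Type) (_ : Ring R), Finite R ∧ Nonempty (Rˣ ≃* G)

section RingPart

variable {R : Type} [Ring R]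

/-- If `u ^ (2 ^ j) = 1`, then `(u ^ 2 + 1) ^ (2 ^ j)` is twice an element which commutes with `2`. -/
lemma two_dvd_pow (u : R) (j : ℕ) (hu : u ^ 2 ^ j = 1) : ∃ W : R, (u ^ 2 + 1) ^ 2 ^ j = 2 * W := by
  have h := (Commute.one_right (u ^ 2)).add_pow_prime_pow_eq' Nat.prime_two j
  have h1 : (u ^ 2) ^ 2 ^ j = 1 := by rw [← pow_mul, mul_comm, pow_mul, hu, one_pow]
  rw [h1, one_pow] at h
  refine ⟨1 + ∑ k ∈ Finset.Ioo 0 (2 ^ j), (u ^ 2) ^ k * 1 ^ (2 ^ j - k) *
    ((((2 ^ j).choose k / 2 : ℕ)) : R), ?_⟩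
  rw [h, mul_add, mul_one]
  norm_num

/-- Two-primary part: nilpotence of `e (g + g⁻¹)`. -/
lemma nilp (g : Rˣ) (j A : ℕ) (hg : g ^ 2 ^ j = 1) (e : R) (hee : e * e = e)
    (hec : ∀ x : R, e * x = x * e) (hA : e * 2 ^ A = 0) :
    IsNilpotent (e * ((g : R) + ((g⁻¹ : Rˣ) : R))) := by
  have hg' : (g : R) ^ 2 ^ j = 1 := by rw [← Units.val_pow_eq_pow_val, hg, Units.val_one]
  obtain ⟨W, hW⟩ := two_dvd_pow (g : R) j hg'
  have h1 : (g : R) + ((g⁻¹ : Rˣ) : R) = ((g⁻¹ : Rˣ) : R) * ((g : R) ^ 2 + 1) := by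
    rw [mul_add, pow_two, ← mul_assoc, Units.inv_mul, one_mul, mul_one]
  have hcomm : Commute ((g⁻¹ : Rˣ) : R) ((g : R) ^ 2 + 1) := by
    have : Commute ((g⁻¹ : Rˣ) : R) (g : R) := by
      rw [Commute, SemiconjBy, Units.inv_mul, Units.mul_inv]
    exact (this.pow_right 2).add_right (Commute.one_right _)
  have h2 : ∃ V : R, ((g : R) + ((g⁻¹ : Rˣ) : R)) ^ 2 ^ j = 2 * V := by
    rw [h1, hcomm.mul_pow, hW]
    refine ⟨((g⁻¹ : Rˣ) : R) ^ 2 ^ j * W, ?_⟩
    rw [← mul_assoc, ← mul_assoc]
    congr 1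
    exact (Nat.cast_commute 2 _).eq.symm
  obtain ⟨V, hV⟩ := h2
  refine ⟨2 ^ j * (A + 1), ?_⟩
  have hpow : ∀ n : ℕ, e ^ (n + 1) = e := by
    intro n
    induction n with
    | zero => simp
    | succ n ih => rw [pow_succ, ih, hee]
  have hce : Commute e ((g : R) + ((g⁻¹ : Rˣ) : R)) := hec _
  have h2V : Commute (2 : R) V := Nat.cast_commute 2 V
  rw [hce.mul_pow, pow_mul ((g : R) + _), hV, h2V.mul_pow, ← mul_assoc]
  have h0 : e ^ (2 ^ j * (A + 1)) * 2 ^ (A + 1) = 0 := by
    obtain ⟨n, hn⟩ := Nat.exists_eq_succ_of_ne_zero (show 2 ^ j * (A + 1) ≠ 0 by positivity)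
    rw [hn, Nat.succ_eq_add_one, hpow, pow_succ, ← mul_assoc, hA, zero_mul]
  rw [h0, zero_mul]

end RingPart

section Main

variable {R : Type} [Ring R]

/-- The ring theoretic core: an involution `s` and a unit `g` with `s g s = g⁻¹` whose conjugates
are `g` and `g⁻¹`, in a finite ring whose unit group is a 2-group. If every unit which commutes
with `s` and with all units commuting with `s` is of the form `c` or `s c` with `c` in the centre
of the unit group, then `g ^ 4 = 1`. -/
lemma core [Finite R] (hU : ∀ u : Rˣ, ∃ j : ℕ, u ^ 2 ^ j = 1) (s g : Rˣ) (hs : s * s = 1)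
    (hsg : s * g = g⁻¹ * s) (hsgne : s * g ≠ g * s)
    (hconj : ∀ v : Rˣ, v * g = g * v ∨ v * g = g⁻¹ * v)
    (hcent : ∀ u : Rˣ, (∀ v : Rˣ, v * s = s * v → u * v = v * u) →
      (∀ v : Rˣ, u * v = v * u) ∨ (∀ v : Rˣ, (s * u) * v = v * (s * u))) :
    g ^ 4 = 1 := by
  -- idempotent of the 2-primary part
  obtain ⟨N, hN0, hN⟩ : ∃ N : ℕ, 0 < N ∧ (N : R) = 0 := by
    obtain ⟨N, hN0, hN⟩ := (isOfFinAddOrder_of_finite (1 : R)).exists_nsmul_eq_zero
    exact ⟨N, hN0, by simpa using hN⟩
  obtain ⟨A, m, hm, hNe⟩ : ∃ A m : ℕ, ¬ 2 ∣ m ∧ N = 2 ^ A * m :=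
    Nat.exists_eq_pow_mul_and_not_dvd hN0.ne' 2 (by norm_num)
  have hcop : IsCoprime ((2 ^ A : ℕ) : ℤ) (m : ℤ) := by
    rw [Nat.isCoprime_iff_coprime]
    exact Nat.Coprime.pow_left _ ((Nat.prime_two.coprime_iff_not_dvd).2 hm)
  obtain ⟨a, b, hab⟩ := hcop
  -- e = b m, f = a 2 ^ A
  set e : R := ((b * m : ℤ) : R) with he
  set f : R := ((a * (2 ^ A : ℕ) : ℤ) : R) with hf
  have hef : f + e = 1 := by
    rw [he, hf, ← Int.cast_add, hab, Int.cast_one]
  have hNz : ((2 ^ A : ℕ) : R) * (m : R) = 0 := by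
    rw [← Nat.cast_mul, ← hNe, hN]
  have hec : ∀ x : R, e * x = x * e := fun x => (Int.cast_commute _ x).eq
  have hfc : ∀ x : R, f * x = x * f := fun x => (Int.cast_commute _ x).eq
  have he2 : e * 2 ^ A = 0 := by
    rw [he]; push_cast
    have : (m : R) * 2 ^ A = 0 := by
      have h := hNz
      push_cast at h
      rw [← h]
      exact (Nat.cast_commute m _).eq
    rw [mul_assoc, this, mul_zero]
  have hfm : f * e = 0 := by
    rw [he, hf]; push_cast
    have h := hNz
    push_cast at h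
    have h1 : (a : R) * 2 ^ A * ((b : R) * m) = a * b * (2 ^ A * m) := by
      have : (2 : R) ^ A * (b : R) = b * 2 ^ A := by
        have := (Int.cast_commute b ((2 : R) ^ A)).eq
        exact this.symm
      calc (a : R) * 2 ^ A * ((b : R) * m) = a * (2 ^ A * b) * m := by noncomm_ring
        _ = a * b * (2 ^ A * m) := by rw [this]; noncomm_ring
    rw [h1, h, mul_zero]
  have hee : e * e = e := by
    have : (f + e) * e = e := by rw [hef, one_mul]
    rwa [add_mul, hfm, zero_add] at this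
  have hff : f * f = f := by
    have : f * (f + e) = f := by rw [hef, mul_one]
    rwa [mul_add, hfm, add_zero] at this
  -- the 2-primary part
  have hpart1 : e * ((g : R) + ((g⁻¹ : Rˣ) : R)) * ((s : R) * g - g * s) = 0 := by
    set c : R := e * ((g : R) + ((g⁻¹ : Rˣ) : R)) with hc
    obtain ⟨j, hj⟩ := hU g
    have hnil : IsNilpotent c := nilp g j A hj e hee hec he2
    have hcU : ∀ v : Rˣ, c * (v : R) = v * c := by
      intro v
      have h1 : ((g : R) + ((g⁻¹ : Rˣ) : R)) * v = v * ((g : R) + ((g⁻¹ : Rˣ) : R)) := by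
        rcases hconj v with h | h
        · have h' : v * g⁻¹ = g⁻¹ * v := by
            rw [eq_inv_mul_iff_mul_eq, ← mul_assoc, ← h, mul_assoc, mul_inv_cancel, mul_one]
          have e1 : (v : R) * g = g * v := by rw [← Units.val_mul, h, Units.val_mul]
          have e2 : (v : R) * ((g⁻¹ : Rˣ) : R) = ((g⁻¹ : Rˣ) : R) * v := by
            rw [← Units.val_mul, h', Units.val_mul]
          rw [add_mul, mul_add, e1, e2]
        · have h' : v * g⁻¹ = g * v := by
            have : v = g⁻¹ * v * g⁻¹ := by rw [← h, mul_assoc, mul_inv_cancel, mul_one]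
            conv_rhs => rw [this]
            group
          have e1 : (v : R) * g = ((g⁻¹ : Rˣ) : R) * v := by rw [← Units.val_mul, h, Units.val_mul]
          have e2 : (v : R) * ((g⁻¹ : Rˣ) : R) = g * v := by
            rw [← Units.val_mul, h', Units.val_mul]
          rw [add_mul, mul_add, e1, e2, add_comm]
      rw [hc, mul_assoc, h1, ← mul_assoc, hec, mul_assoc]
    have hcs : Commute c (s : R) := hcU s
    have hnil2 : IsNilpotent (c * (s : R)) := hcs.isNilpotent_mul_right hnil
    have hunit : IsUnit (1 + c * (s : R)) := hnil2.isUnit_one_add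
    obtain ⟨u, hu⟩ := hunit
    have hucomm : ∀ v : Rˣ, v * s = s * v → u * v = v * u := by
      intro v hv
      apply Units.ext
      rw [Units.val_mul, Units.val_mul, hu]
      have e1 : (v : R) * s = s * v := by rw [← Units.val_mul, hv, Units.val_mul]
      rw [add_mul, mul_add, one_mul, mul_one, mul_assoc, ← e1, ← mul_assoc, hcU v, mul_assoc]
    rcases hcent u hucomm with h | h
    · have h1 := congrArg Units.val (h g)
      rw [Units.val_mul, Units.val_mul, hu] at h1
      have h2 : c * (s : R) * g = g * (c * s) := by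
        have : (1 + c * (s : R)) * g - g * (1 + c * s) = 0 := sub_eq_zero.2 h1
        have h3 : (1 + c * (s : R)) * g - g * (1 + c * s) = c * (s : R) * g - g * (c * s) := by
          noncomm_ring
        rw [h3] at this
        exact sub_eq_zero.1 this
      have e3 : c * ((g : R) * s) = g * (c * s) := by rw [← mul_assoc, hcU g, mul_assoc]
      rw [mul_sub, ← mul_assoc, h2, e3, sub_self]
    · exfalso
      -- `s u` is central, `s * u = s + c`
      have h1 : ((s * u : Rˣ) : R) = s + c := by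
        rw [Units.val_mul, hu, mul_add, mul_one, ← mul_assoc, ← hcU s, mul_assoc, ← Units.val_mul, hs,
          Units.val_one, mul_one]
      have h2 := congrArg Units.val (h g)
      rw [Units.val_mul, h1, Units.val_mul, h1, add_mul, mul_add, hcU g] at h2
      have h3 : (s : R) * g = g * s := add_right_cancel h2
      apply hsgne
      apply Units.ext
      rw [Units.val_mul, Units.val_mul, h3]
  -- the odd part
  obtain ⟨q, hq⟩ : ∃ q : ℕ, m = 2 * q + 1 := by
    have := Nat.odd_iff.2 (Nat.two_dvd_ne_zero.1 hm)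
    exact this
  have hmf : (m : R) * f = 0 := by
    rw [hf]; push_cast
    have h := hNz
    push_cast at h
    have h1 : (m : R) * ((a : R) * 2 ^ A) = a * (2 ^ A * m) := by
      have e1 : (m : R) * (a : R) = a * m := (Nat.cast_commute m _).eq
      have e2 : (m : R) * (2 : R) ^ A = 2 ^ A * m := (Nat.cast_commute m _).eq
      rw [← mul_assoc, e1, mul_assoc, e2]
    rw [h1, h, mul_zero]
  set T : R := -(q : R) with hT
  have hTc : ∀ x : R, T * x = x * T := by
    intro x
    rw [hT, neg_mul, mul_neg, (Nat.cast_commute q x).eq]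
  have h2T : 2 * T * f = f := by
    have h1 : (1 : R) - 2 * T = m := by
      rw [hT, hq, mul_neg, sub_neg_eq_add, add_comm]; push_cast; rfl
    have h2 : (1 - 2 * T) * f = 0 := by rw [h1, hmf]
    rw [sub_mul, one_mul, sub_eq_zero] at h2
    exact h2.symm
  have hzero : ∀ n : R, n * n = 0 → (m : R) * n = 0 → n = 0 := by
    intro n hnn hmn
    have hu : IsUnit (1 + n) := by
      have : IsNilpotent n := ⟨2, by rw [pow_two, hnn]⟩
      exact this.isUnit_one_add
    obtain ⟨u, hu⟩ := hu
    obtain ⟨j, hj⟩ := hU u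
    have hpow : ∀ k : ℕ, (1 + n) ^ k = 1 + k * n := by
      intro k
      induction k with
      | zero => simp
      | succ k ih =>
        rw [pow_succ, ih]
        push_cast
        have : (k : R) * n * n = 0 := by rw [mul_assoc, hnn, mul_zero]
        calc (1 + (k : R) * n) * (1 + n) = 1 + (k + 1) * n + k * n * n := by noncomm_ring
          _ = _ := by rw [this, add_zero]
    have h1 : ((2 ^ j : ℕ) : R) * n = 0 := by
      have h2 := congrArg Units.val hj
      rw [Units.val_pow_eq_pow_val, hu, Units.val_one, hpow] at h2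
      exact add_eq_left.1 h2
    have hcop2 : IsCoprime ((2 ^ j : ℕ) : ℤ) (m : ℤ) := by
      rw [Nat.isCoprime_iff_coprime]
      exact Nat.Coprime.pow_left _ ((Nat.prime_two.coprime_iff_not_dvd).2 hm)
    obtain ⟨x, y, hxy⟩ := hcop2
    have h3 : (((x * (2 ^ j : ℕ) + y * m : ℤ)) : R) * n = n := by
      rw [hxy, Int.cast_one, one_mul]
    rw [← h3, Int.cast_add, Int.cast_mul, Int.cast_mul, Int.cast_natCast, Int.cast_natCast,
      add_mul, mul_assoc, mul_assoc, h1, hmn, mul_zero, mul_zero, add_zero]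
  have hss : (s : R) * s = 1 := by rw [← Units.val_mul, hs, Units.val_one]
  set ε : R := T * (1 + s) * f with hε
  have hεf : ε * f = ε := by rw [hε, mul_assoc, hff]
  have hεε : ε * ε = ε := by
    have h1 : (1 + (s : R)) * (1 + s) = 2 * (1 + s) := by
      calc (1 + (s : R)) * (1 + s) = 1 + 2 * s + s * s := by noncomm_ring
        _ = 2 * (1 + s) := by rw [hss]; noncomm_ring
    calc ε * ε = T * (1 + s) * f * (T * (1 + s) * f) := by rw [hε]
      _ = T * (1 + s) * (T * (1 + s) * f * f) := by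
          rw [mul_assoc (T * (1 + (s : R))) f, hfc (T * (1 + (s : R)) * f)]
      _ = T * ((1 + s) * T) * ((1 + s) * f * f) := by noncomm_ring
      _ = T * T * ((1 + s) * (1 + s)) * f := by
          rw [← hTc (1 + (s : R)), mul_assoc _ f f, hff]; noncomm_ring
      _ = T * (T * 2) * (1 + s) * f := by rw [h1]; noncomm_ring
      _ = T * (2 * T) * (1 + s) * f := by rw [hTc 2]
      _ = T * ((2 * T) * ((1 + s) * f)) := by noncomm_ring
      _ = T * ((2 * T) * (f * (1 + s))) := by rw [hfc]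
      _ = T * (2 * T * f * (1 + s)) := by noncomm_ring
      _ = T * (f * (1 + s)) := by rw [h2T]
      _ = T * ((1 + s) * f) := by rw [hfc]
      _ = ε := by rw [hε, mul_assoc]
  have hmε : (m : R) * ε = 0 := by
    rw [hε, (Nat.cast_commute m _).eq, mul_assoc, ← (Nat.cast_commute m f).eq, hmf, mul_zero]
  have hcε : ∀ x : R, ε * x = x * ε := by
    intro x
    have h1 : ε * x * (f - ε) = 0 := by
      apply hzero
      · have : (f - ε) * ε = 0 := by rw [sub_mul, hfc, hεf, hεε, sub_self]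
        calc ε * x * (f - ε) * (ε * x * (f - ε)) = ε * x * ((f - ε) * ε) * x * (f - ε) := by
              noncomm_ring
          _ = 0 := by rw [this]; simp
      · rw [← mul_assoc, ← mul_assoc, hmε, zero_mul, zero_mul]
    have h2 : (f - ε) * x * ε = 0 := by
      apply hzero
      · have : ε * (f - ε) = 0 := by rw [mul_sub, hεf, hεε, sub_self]
        calc (f - ε) * x * ε * ((f - ε) * x * ε) = (f - ε) * x * (ε * (f - ε)) * x * ε := by
              noncomm_ring
          _ = 0 := by rw [this]; simp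
      · have h0 : (m : R) * (f - ε) = 0 := by rw [mul_sub, hmf, hmε, sub_zero]
        calc (m : R) * ((f - ε) * x * ε) = ((m : R) * (f - ε)) * x * ε := by noncomm_ring
          _ = 0 := by rw [h0, zero_mul, zero_mul]
    have h3 : ε * x * f = ε * x * ε := by
      rw [mul_sub] at h1; exact sub_eq_zero.1 h1
    have h4 : f * x * ε = ε * x * ε := by
      rw [sub_mul, sub_mul] at h2; exact sub_eq_zero.1 h2
    have h5 : ε * x = ε * x * f := by
      calc ε * x = (ε * f) * x := by rw [hεf]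
        _ = ε * (f * x) := mul_assoc _ _ _
        _ = ε * (x * f) := by rw [hfc x]
        _ = ε * x * f := (mul_assoc _ _ _).symm
    have h6 : x * ε = f * x * ε := by
      calc x * ε = x * (ε * f) := by rw [hεf]
        _ = x * (f * ε) := by rw [hfc ε]
        _ = (x * f) * ε := (mul_assoc _ _ _).symm
        _ = f * x * ε := by rw [hfc x]
    rw [h5, h6, h3, h4]
  have hpart2 : f * ((s : R) * g - g * s) = 0 := by
    have h1 : f * (s : R) = 2 * ε - f := by
      have : 2 * ε = f + f * s := by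
        calc 2 * ε = (2 * T) * ((1 + s) * f) := by rw [hε]; noncomm_ring
          _ = (2 * T) * (f * (1 + s)) := by rw [hfc]
          _ = 2 * T * f * (1 + s) := by noncomm_ring
          _ = f + f * s := by rw [h2T, mul_add, mul_one]
      rw [this]; abel
    have h2 : f * ((s : R) * g) = (2 * ε - f) * g := by rw [← mul_assoc, h1]
    have h3 : f * ((g : R) * s) = g * (2 * ε - f) := by
      rw [← mul_assoc, hfc, mul_assoc, h1]
    rw [mul_sub, h2, h3, sub_mul, mul_sub, hfc, mul_assoc, hcε]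
    noncomm_ring
  -- conclusion
  have hd : (s : R) * g - g * s = (((g⁻¹ : Rˣ) : R) - g) * s := by
    rw [sub_mul, ← Units.val_mul, ← Units.val_mul, ← Units.val_mul, hsg]
  have hsu : ∀ y : R, y * (s : R) = 0 → y = 0 := by
    intro y hy
    have : y * (s : R) * s = 0 := by rw [hy, zero_mul]
    rwa [mul_assoc, hss, mul_one] at this
  have h1 : e * ((g : R) + ((g⁻¹ : Rˣ) : R)) * (((g⁻¹ : Rˣ) : R) - g) = 0 := by
    apply hsu
    rw [mul_assoc, ← hd]
    exact hpart1
  have h2 : f * (((g⁻¹ : Rˣ) : R) - g) = 0 := by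
    apply hsu
    rw [mul_assoc, ← hd]
    exact hpart2
  have h3 : f * ((g : R) + ((g⁻¹ : Rˣ) : R)) * (((g⁻¹ : Rˣ) : R) - g) = 0 := by
    rw [hfc, mul_assoc, h2, mul_zero]
  have h4 : ((g : R) + ((g⁻¹ : Rˣ) : R)) * (((g⁻¹ : Rˣ) : R) - g) = 0 := by
    have : (f + e) * (((g : R) + ((g⁻¹ : Rˣ) : R)) * (((g⁻¹ : Rˣ) : R) - g)) = 0 := by
      rw [add_mul, ← mul_assoc, ← mul_assoc, h3, h1, add_zero]
    rwa [hef, one_mul] at this
  have h5 : ((g⁻¹ : Rˣ) : R) * ((g⁻¹ : Rˣ) : R) = g * g := by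
    have e1 : ((g : R) + ((g⁻¹ : Rˣ) : R)) * (((g⁻¹ : Rˣ) : R) - g) =
        ((g⁻¹ : Rˣ) : R) * ((g⁻¹ : Rˣ) : R) - g * g +
          (g * ((g⁻¹ : Rˣ) : R) - ((g⁻¹ : Rˣ) : R) * g) := by noncomm_ring
    rw [e1, Units.mul_inv, Units.inv_mul, sub_self, add_zero] at h4
    exact sub_eq_zero.1 h4
  have h6 : g⁻¹ * g⁻¹ = g * g := Units.ext (by rw [Units.val_mul, Units.val_mul]; exact h5)
  calc g ^ 4 = g * g * (g * g) := by simp only [pow_succ, pow_zero, one_mul, mul_assoc]
    _ = g⁻¹ * g⁻¹ * (g * g) := by rw [h6]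
    _ = 1 := by group

end Main

section Final

open DihedralGroup

lemma isPGroup_dihedral (k : ℕ) : IsPGroup 2 (DihedralGroup (2 ^ k)) := by
  apply IsPGroup.of_card (n := k + 1)
  rw [DihedralGroup.nat_card, pow_succ]
  ring

lemma commutes_sr {n : ℕ} {d : DihedralGroup n} (h : d * sr 0 = sr 0 * d) :
    ∃ i : ZMod n, i + i = 0 ∧ (d = r i ∨ d = sr i) := by
  rcases d with i | i
  · refine ⟨i, ?_, Or.inl rfl⟩
    rw [r_mul_sr, sr_mul_r] at h
    have h1 : (0 : ZMod n) - i = 0 + i := by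
      injection h
    have : i + i = -((0 : ZMod n) - i) + (0 + i) - 0 := by ring
    rw [this, h1]; ring
  · refine ⟨i, ?_, Or.inr rfl⟩
    rw [sr_mul_sr, sr_mul_sr] at h
    have h1 : (0 : ZMod n) - i = i - 0 := by
      injection h
    have : i + i = -((0 : ZMod n) - i) + (i - 0) := by ring
    rw [this, h1]; ring

lemma central_r {n : ℕ} {i : ZMod n} (hi : i + i = 0) (d : DihedralGroup n) :
    r i * d = d * r i := by
  rcases d with j | j
  · rw [r_mul_r, r_mul_r, add_comm]
  · rw [r_mul_sr, sr_mul_r]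
    congr 1
    have : j - i = j + i - (i + i) := by ring
    rw [this, hi, sub_zero]

lemma not_realizable_prod (k : ℕ) (hk : 3 ≤ k) (H : Type) [Group H] (hH : IsPGroup 2 H) :
    ¬ Realizable (DihedralGroup (2 ^ k) × H) := by
  rintro ⟨R, _, hR, ⟨φ⟩⟩
  have hU : ∀ u : Rˣ, ∃ j : ℕ, u ^ 2 ^ j = 1 := by
    intro u
    obtain ⟨i, hi⟩ := isPGroup_dihedral k (φ u).1
    obtain ⟨j, hj⟩ := hH (φ u).2
    refine ⟨i + j, φ.injective ?_⟩
    rw [map_pow, map_one]
    apply Prod.ext
    · rw [Prod.pow_fst, pow_add, pow_mul, hi, one_pow]; rfl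
    · rw [Prod.pow_snd, pow_add, mul_comm, pow_mul, hj, one_pow]; rfl
  set s : Rˣ := φ.symm (sr 0, 1) with hs
  set g : Rˣ := φ.symm (r 1, 1) with hg
  have hφs : φ s = (sr 0, 1) := by rw [hs, MulEquiv.apply_symm_apply]
  have hφg : φ g = (r 1, 1) := by rw [hg, MulEquiv.apply_symm_apply]
  have key := core hU s g ?_ ?_ ?_ ?_ ?_
  · have h1 : φ (g ^ 4) = 1 := by rw [key, map_one]
    rw [map_pow, hφg] at h1
    have h2 := congrArg Prod.fst h1
    rw [Prod.pow_fst, Prod.fst_one] at h2
    simp only at h2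
    rw [r_one_pow, one_def] at h2
    have h3 : ((4 : ℕ) : ZMod (2 ^ k)) = 0 := by
      injection h2
    rw [ZMod.natCast_eq_zero_iff] at h3
    have h4 : 2 ^ k ≤ 4 := Nat.le_of_dvd (by norm_num) h3
    have h5 : 2 ^ 3 ≤ 2 ^ k := Nat.pow_le_pow_right (by norm_num) hk
    omega
  · apply φ.injective
    rw [map_mul, hφs, map_one, Prod.mk_mul_mk, sr_mul_sr, sub_self, one_mul, ← one_def]
    rfl
  · apply φ.injective
    rw [map_mul, map_mul, map_inv, hφs, hφg, Prod.mk_mul_mk, Prod.inv_mk, Prod.mk_mul_mk, inv_r,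
      sr_mul_r, r_mul_sr, sub_neg_eq_add]
    simp
  · intro h
    have h1 := congrArg φ h
    rw [map_mul, map_mul, hφs, hφg, Prod.mk_mul_mk, Prod.mk_mul_mk, sr_mul_r, r_mul_sr] at h1
    have h2 := congrArg Prod.fst h1
    have h3 : (0 : ZMod (2 ^ k)) + 1 = 0 - 1 := by
      simp only at h2
      injection h2
    have h4 : ((2 : ℕ) : ZMod (2 ^ k)) = 0 := by
      have : ((2 : ℕ) : ZMod (2 ^ k)) = (0 + 1) - (0 - 1) := by push_cast; ring
      rw [this, h3, sub_self]
    rw [ZMod.natCast_eq_zero_iff] at h4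
    have h5 : 2 ^ k ≤ 2 := Nat.le_of_dvd (by norm_num) h4
    have h6 : 2 ^ 3 ≤ 2 ^ k := Nat.pow_le_pow_right (by norm_num) hk
    omega
  · intro v
    rcases hv : φ v with ⟨d, h⟩
    rcases d with i | i
    · left
      apply φ.injective
      rw [map_mul, map_mul, hφg, hv, Prod.mk_mul_mk, Prod.mk_mul_mk, r_mul_r, r_mul_r, add_comm]
      simp
    · right
      apply φ.injective
      rw [map_mul, map_mul, map_inv, hφg, hv, Prod.mk_mul_mk, Prod.inv_mk, Prod.mk_mul_mk, inv_r,
        sr_mul_r, r_mul_sr, sub_neg_eq_add]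
      simp
  · intro u hu
    rcases hv : φ u with ⟨d, h⟩
    have h1 : d * sr 0 = sr 0 * d := by
      have h2 := congrArg φ (hu s rfl)
      rw [map_mul, map_mul, hφs, hv, Prod.mk_mul_mk, Prod.mk_mul_mk] at h2
      exact congrArg Prod.fst h2
    have h3 : ∀ h' : H, h * h' = h' * h := by
      intro h'
      have h4 := hu (φ.symm (1, h')) (by
        apply φ.injective
        rw [map_mul, map_mul, hφs, MulEquiv.apply_symm_apply, Prod.mk_mul_mk, Prod.mk_mul_mk]
        simp)
      have h5 := congrArg φ h4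
      rw [map_mul, map_mul, hv, MulEquiv.apply_symm_apply, Prod.mk_mul_mk, Prod.mk_mul_mk] at h5
      exact congrArg Prod.snd h5
    obtain ⟨i, hi, hd⟩ := commutes_sr h1
    rcases hd with hd | hd
    · left
      intro v
      apply φ.injective
      rw [map_mul, map_mul, hv, hd]
      apply Prod.ext
      · exact central_r hi _
      · exact h3 _
    · right
      intro v
      have h6 : φ (s * u) = (r i, h) := by
        rw [map_mul, hv, hd, hφs, Prod.mk_mul_mk, sr_mul_sr, sub_zero, one_mul]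
      apply φ.injective
      rw [map_mul φ (s * u) v, map_mul φ v (s * u), h6]
      apply Prod.ext
      · exact central_r hi _
      · exact h3 _

/-- For every `k ≥ 3` the dihedral group of order `2 ^ (k + 1)` is a nonabelian `2`-group which is
not realizable, and no direct product of it with a `2`-group is realizable. -/
theorem result : ∀ k : ℕ, 3 ≤ k →
    Nat.card (DihedralGroup (2 ^ k)) = 2 ^ (k + 1) ∧
    (∃ x y : DihedralGroup (2 ^ k), x * y ≠ y * x) ∧
    ¬ Realizable (DihedralGroup (2 ^ k)) ∧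
    ∀ (H : Type) [Group H], IsPGroup 2 H → ¬ Realizable (DihedralGroup (2 ^ k) × H) := by
  intro k hk
  refine ⟨?_, ⟨sr 0, r 1, ?_⟩, ?_, fun H _ hH => not_realizable_prod k hk H hH⟩
  · rw [DihedralGroup.nat_card, pow_succ]
    ring
  · rw [sr_mul_r, r_mul_sr]
    intro h
    have h3 : (0 : ZMod (2 ^ k)) + 1 = 0 - 1 := by
      injection h
    have h4 : ((2 : ℕ) : ZMod (2 ^ k)) = 0 := by
      have : ((2 : ℕ) : ZMod (2 ^ k)) = (0 + 1) - (0 - 1) := by push_cast; ring
      rw [this, h3, sub_self]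
    rw [ZMod.natCast_eq_zero_iff] at h4
    have h5 : 2 ^ k ≤ 2 := Nat.le_of_dvd (by norm_num) h4
    have h6 : 2 ^ 3 ≤ 2 ^ k := Nat.pow_le_pow_right (by norm_num) hk
    omega
  · rintro ⟨R, i, hR, ⟨φ⟩⟩
    apply not_realizable_prod k hk Unit (IsPGroup.of_card (n := 0) (by simp))
    exact ⟨R, i, hR, ⟨φ.trans MulEquiv.prodUnique.symm⟩⟩

end Final

end Pool.Agent.Results.MP_c51eea_al.DihedralFactor
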